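import Pool.Agent.Y305.WN.Cases2
import Pool.Agent.Y534.WN.Tr
import Pool.Agent.Y550.WN.Inj
import Pool.Agent.Y304.WN.Seq

/-!
# Measures of weak non-compactness in C*-algebras which are dual Banach spaces

On a C*-algebra isomorphic, as a Banach space, to a dual space (for instance a von Neumann algebra)
the De Blasi measure is equivalent to `wk`, or equal to `wk` and `wck`, exactly when the algebra is
finite-dimensional.
-/

set_option autoImplicit false

open Filter Topology Set
open scoped ENNReal NNReal
open Pool.Agent.H86R3 Pool.Agent.H86R3.Wnc

namespace Pool.Agent.Results.MP_4226b8_an.DualCStarAlgebras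

universe u

/-- Let `M` be a C*-algebra (unital or not) which is isomorphic, as a Banach space, to a dual space.
The De Blasi measure of the bounded subsets of `M` is dominated by a multiple of `wk` if and only if
`M` is finite-dimensional, and the three measures agree on the bounded subsets of `M` if and only
if `M` is finite-dimensional. -/
theorem result (M : Type u) [NonUnitalCStarAlgebra M] (Y : Type u) [NormedAddCommGroup Y]
    [NormedSpace ℂ Y] (e : M ≃L[ℂ] StrongDual ℂ Y) :
    ((∃ c : ℝ≥0, ∀ A : Set M, A.Nonempty → Bornology.IsBounded A →
        deBlasi A ≤ (c : ℝ≥0∞) * wk A) ↔ FiniteDimensional ℂ M) ∧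
    ((∀ A : Set M, A.Nonempty → Bornology.IsBounded A → deBlasi A = wk A ∧ wk A = wck A) ↔
      FiniteDimensional ℂ M) :=
  Y305.WN.cstar_iff Y534.WN.tr Y550.WN.inj Y304.WN.seq M Y e

end Pool.Agent.Results.MP_4226b8_an.DualCStarAlgebras
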