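import Pool.Agent.Y305.WN.Cases2
import Pool.Agent.Y534.WN.Tr
import Pool.Agent.Y550.WN.Inj
import Pool.Agent.Y304.WN.Seq

/-!
# Measures of weak non-compactness in JBW*-triples of infinite rank

On every JBW*-triple which contains infinitely many nonzero, pairwise orthogonal elements the
De Blasi measure is not dominated by any multiple of `wk` or of `wck`.
-/

set_option autoImplicit false

open Filter Topology Set
open scoped ENNReal NNReal
open Pool.Agent.H86R3 Pool.Agent.H86R3.Wnc Pool.Agent.H86R3.JB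

namespace Pool.Agent.Results.MP_4226b8_an.InfiniteRank

universe u

/-- Q1 and Q2 fail on every JBW*-triple `M` which has a sequence of nonzero elements `f i` with
`{f i, f j, ·} = 0` for `i ≠ j` (JBW*-triples of infinite rank), and such JBW*-triples exist, for
instance `C(βℕ)`. -/
theorem result :
    (∀ (M : Type u) [NormedAddCommGroup M] [NormedSpace ℂ M] (L : M → M → M →L[ℂ] M),
      IsJBWTriple M L → ∀ f : ℕ → M, (∀ i, f i ≠ 0) → (∀ i j, i ≠ j → L (f i) (f j) = 0) →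
      ∀ c : ℝ≥0, ∃ A : Set M, A.Nonempty ∧ Bornology.IsBounded A ∧
        (c : ℝ≥0∞) * wk A < deBlasi A ∧ (c : ℝ≥0∞) * wck A < deBlasi A) ∧
    ∃ L : C(StoneCech ℕ, ℂ) → C(StoneCech ℕ, ℂ) → C(StoneCech ℕ, ℂ) →L[ℂ] C(StoneCech ℕ, ℂ),
      (∀ a b x, L a b x = a * star b * x) ∧ IsJBWTriple C(StoneCech ℕ, ℂ) L ∧
      ∃ f : ℕ → C(StoneCech ℕ, ℂ), (∀ i, f i ≠ 0) ∧ ∀ i j, i ≠ j → L (f i) (f j) = 0 := by
  refine ⟨fun M _ _ L hL f hf o => Y305.WN.bad_triple Y534.WN.tr Y550.WN.inj Y304.WN.seq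
    M L hL f hf o, tri, fun _ _ _ => rfl, isJBWTriple, ?_⟩
  obtain ⟨f, hf, o⟩ := Y305.WN.beta_orth
  refine ⟨f, hf, fun i j hij => ?_⟩
  ext1 x
  rw [tri_apply, o i j hij, zero_mul]
  rfl

end Pool.Agent.Results.MP_4226b8_an.InfiniteRank
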